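import Pool.Agent.N922.PZ.Stm
import Pool.Agent.N42.PQ.Fin

set_option autoImplicit false
set_option linter.all false

/-! # Project PZ (helper922), leaf FINAL (helper914): the counting in terms of the coefficients

Copied from helper459's file `Pool/Agent/N459/PY/Final.lean` (after helper42's
`Pool/Agent/N42/PQ/Fin.lean`), with the conditions kept. -/

open Polynomial
open scoped Classical

namespace Pool.Agent.N914.PZ

open Pool.Agent.N783.PQ (pol fol Cg GoodF GoodS Fam Ht SelZero ov)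
open Pool.Agent.N42.PQ (image_eq pol_inj)

theorem final (h1 : Pool.Agent.N922.PY.S_MAIN4) : Pool.Agent.N922.PZ.S_FINAL := by
  obtain ⟨c, hc, B₀, hB⟩ := h1
  refine ⟨c, hc, B₀, fun B hBB => ?_⟩
  obtain ⟨hf, hle⟩ := hB B hBB
  have e1 : pol '' {a : Fin (2 * 2) → ℤ | ∀ i, |a i| ≤ (B : ℤ) ^ (5 - (i : ℕ))} =
      {f : ℤ[X] | Ht 2 B f} := by
    have h := image_eq (g := 2) B (fun _ => True)
    simp only [and_true] at h
    exact h
  have hfin : {a : Fin (2 * 2) → ℤ | ∀ i, |a i| ≤ (B : ℤ) ^ (5 - (i : ℕ))}.Finite := by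
    refine Set.Finite.of_finite_image ?_ (pol_inj.injOn)
    rw [e1]
    exact hf
  refine ⟨hfin, ?_⟩
  rw [← e1, Set.ncard_image_of_injective _ pol_inj] at hle
  refine hle.trans ?_
  have e2 : pol '' {a : Fin (2 * 2) → ℤ | (∀ i, |a i| ≤ (B : ℤ) ^ (5 - (i : ℕ))) ∧
      (Irreducible (ov ℚ (pol a)) ∧ SelZero (pol a) ∧ Cg 4 (pol a) Pool.Agent.N922.PY.f0)} =
      {f : ℤ[X] | Ht 2 B f ∧ Irreducible (ov ℚ f) ∧ SelZero f ∧ Cg 4 f Pool.Agent.N922.PY.f0} :=
    image_eq (g := 2) B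
      (fun f => Irreducible (ov ℚ f) ∧ SelZero f ∧ Cg 4 f Pool.Agent.N922.PY.f0)
  rw [← e2, Set.ncard_image_of_injective _ pol_inj]

end Pool.Agent.N914.PZ
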